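import Mathlib

set_option autoImplicit false

/-!
Local coordinates on affine space: polynomials in local coordinates approximate all polynomials.
-/

open MvPolynomial

namespace Pool.Agent.Q296.AB

variable {k σ : Type} [Field k] [Fintype σ] [DecidableEq σ]

/-- the ideal of the variables -/
noncomputable abbrev nn (σ k : Type) [Field k] : Ideal (MvPolynomial σ k) := idealOfVars σ k

/-- the ideal of the point -/
noncomputable abbrev mm (q : σ → k) : Ideal (MvPolynomial σ k) := RingHom.ker (eval q)

omit [Fintype σ] [DecidableEq σ] in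
theorem X_mem (b : σ) : (X b : MvPolynomial σ k) ∈ nn σ k := Ideal.subset_span ⟨b, rfl⟩

omit [Fintype σ] [DecidableEq σ] in
theorem sub_mem_mm (q : σ → k) (i : σ) : (X i - C (q i) : MvPolynomial σ k) ∈ mm q := by
  rw [RingHom.mem_ker]
  simp

omit [Fintype σ] [DecidableEq σ] in
theorem mem_nn (T : MvPolynomial σ k) (h : constantCoeff T = 0) : T ∈ nn σ k := by
  have h1 := (mem_pow_idealOfVars_iff' (R := k) 1 T).2 fun x hx => by
    have hx0 : x = 0 := by
      rw [Nat.lt_one_iff] at hx
      exact (Finsupp.degree_eq_zero_iff x).1 hx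
    rw [hx0]
    exact h
  rwa [pow_one] at h1

omit [Fintype σ] [DecidableEq σ] in
/-- close to the identity -/
theorem near_step (θ : MvPolynomial σ k →ₐ[k] MvPolynomial σ k)
    (hθ : ∀ b, θ (X b) - X b ∈ nn σ k ^ 2) (d : ℕ) :
    ∀ T ∈ nn σ k ^ d, θ T - T ∈ nn σ k ^ (d + 1) := by
  -- the image of the maximal ideal
  have hmap : ∀ T ∈ nn σ k, θ T ∈ nn σ k := by
    intro T hT
    have h1 : nn σ k ≤ (nn σ k).comap θ.toRingHom := by
      refine Ideal.span_le.2 ?_
      rintro _ ⟨b, rfl⟩
      show θ (X b) ∈ nn σ k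
      have h2 : θ (X b) = (θ (X b) - X b) + X b := by ring
      rw [h2]
      exact Ideal.add_mem _ (Ideal.pow_le_self two_ne_zero (hθ b)) (X_mem b)
    exact h1 hT
  have h0 : ∀ T : MvPolynomial σ k, θ T - T ∈ nn σ k := by
    intro T
    have h1 : T = C (constantCoeff T) + (T - C (constantCoeff T)) := by ring
    have h2 : T - C (constantCoeff T) ∈ nn σ k := mem_nn _ (by simp)
    have h3 : θ T - T = θ (T - C (constantCoeff T)) - (T - C (constantCoeff T)) := by
      rw [map_sub, show θ (C (constantCoeff T)) = C (constantCoeff T) from θ.commutes _]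
      ring
    rw [h3]
    exact Ideal.sub_mem _ (hmap _ h2) h2
  have h1 : ∀ T ∈ nn σ k, θ T - T ∈ nn σ k ^ 2 := by
    intro T hT
    refine Submodule.span_induction ?_ ?_ ?_ ?_ hT
    · rintro _ ⟨b, rfl⟩
      exact hθ b
    · simp
    · intro x y _ _ hx hy
      have : θ (x + y) - (x + y) = (θ x - x) + (θ y - y) := by rw [map_add]; ring
      rw [this]
      exact Ideal.add_mem _ hx hy
    · intro a x hx hx2
      have hx' : x ∈ nn σ k := hx
      have : θ (a • x) - a • x = θ a * (θ x - x) + (θ a - a) * x := by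
        rw [smul_eq_mul, map_mul]; ring
      rw [this]
      refine Ideal.add_mem _ (Ideal.mul_mem_left _ _ hx2) ?_
      rw [pow_two]
      exact Ideal.mul_mem_mul (h0 a) hx'
  induction d with
  | zero =>
    intro T _
    rw [zero_add, pow_one]
    exact h0 T
  | succ d ih =>
    intro T hT
    rw [pow_succ] at hT
    refine Submodule.mul_induction_on hT ?_ ?_
    · intro x hx y hy
      have h2 : θ (x * y) - x * y = θ x * (θ y - y) + (θ x - x) * y := by rw [map_mul]; ring
      have h3 : θ x ∈ nn σ k ^ d := by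
        have h4 : θ x = (θ x - x) + x := by ring
        rw [h4]
        exact Ideal.add_mem _ (Ideal.pow_le_pow_right (Nat.le_succ d) (ih x hx)) hx
      rw [h2]
      refine Ideal.add_mem _ ?_ ?_
      · rw [show d + 1 + 1 = d + 2 from rfl, pow_add]
        exact Ideal.mul_mem_mul h3 (h1 y hy)
      · rw [pow_succ]
        exact Ideal.mul_mem_mul (ih x hx) hy
    · intro x y hx hy
      have : θ (x + y) - (x + y) = (θ x - x) + (θ y - y) := by rw [map_add]; ring
      rw [this]
      exact Ideal.add_mem _ hx hy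

/-- surjectivity modulo powers -/
theorem near_surj (θ : MvPolynomial σ k →ₐ[k] MvPolynomial σ k)
    (hθ : ∀ b, θ (X b) - X b ∈ nn σ k ^ 2) (B : ℕ) (G : MvPolynomial σ k) :
    ∃ T, G - θ T ∈ nn σ k ^ B := by
  induction B with
  | zero => exact ⟨0, by simp⟩
  | succ B ih =>
    obtain ⟨T, hT⟩ := ih
    refine ⟨T + (G - θ T), ?_⟩
    have h1 := near_step θ hθ B _ hT
    have h2 : G - θ (T + (G - θ T)) = -(θ (G - θ T) - (G - θ T)) := by rw [map_add]; ring
    rw [h2]
    exact Ideal.neg_mem_iff _ |>.2 h1

/-- injectivity modulo powers -/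
theorem near_inj (θ : MvPolynomial σ k →ₐ[k] MvPolynomial σ k)
    (hθ : ∀ b, θ (X b) - X b ∈ nn σ k ^ 2) (B : ℕ) (T : MvPolynomial σ k)
    (hT : θ T ∈ nn σ k ^ B) : T ∈ nn σ k ^ B := by
  have h : ∀ d ≤ B, T ∈ nn σ k ^ d := by
    intro d
    induction d with
    | zero => intro _; simp
    | succ d ih =>
      intro hd
      have h1 := near_step θ hθ d T (ih (by omega))
      have h2 : T = θ T - (θ T - T) := by ring
      rw [h2]
      exact Ideal.sub_mem _ (Ideal.pow_le_pow_right hd hT) h1
  exact h B le_rfl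

/-- the first order expansion -/
theorem taylor (q : σ → k) (Y : MvPolynomial σ k) :
    Y - C (eval q Y) - ∑ i, C (eval q (pderiv i Y)) * (X i - C (q i)) ∈ mm q ^ 2 := by
  induction Y using MvPolynomial.induction_on with
  | C a => simp
  | add p r hp hr =>
    have h1 : p + r - C (eval q (p + r)) - ∑ i, C (eval q (pderiv i (p + r))) * (X i - C (q i)) =
        (p - C (eval q p) - ∑ i, C (eval q (pderiv i p)) * (X i - C (q i))) +
        (r - C (eval q r) - ∑ i, C (eval q (pderiv i r)) * (X i - C (q i))) := by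
      simp only [map_add, add_mul, Finset.sum_add_distrib]
      ring
    rw [h1]
    exact Ideal.add_mem _ hp hr
  | mul_X p j hp =>
    have hs : ∑ i, C (eval q (pderiv i (p * X j))) * (X i - C (q i)) =
        C (q j) * ∑ i, C (eval q (pderiv i p)) * (X i - C (q i)) +
          C (eval q p) * (X j - C (q j)) := by
      have h2 : ∀ i, C (eval q (pderiv i (p * X j))) * (X i - C (q i)) =
          C (q j) * (C (eval q (pderiv i p)) * (X i - C (q i))) +
            (if i = j then C (eval q p) * (X j - C (q j)) else 0) := by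
        intro i
        rw [Derivation.leibniz, pderiv_X]
        simp only [smul_eq_mul, map_add, map_mul, eval_X]
        by_cases h : i = j
        · subst h
          simp
          ring
        · simp [h, Ne.symm h]
          ring
      rw [Finset.sum_congr rfl fun i _ => h2 i, Finset.sum_add_distrib, ← Finset.mul_sum]
      simp
    have h1 : p * X j - C (eval q (p * X j)) -
        ∑ i, C (eval q (pderiv i (p * X j))) * (X i - C (q i)) =
        X j * (p - C (eval q p) - ∑ i, C (eval q (pderiv i p)) * (X i - C (q i))) +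
        (X j - C (q j)) * ∑ i, C (eval q (pderiv i p)) * (X i - C (q i)) := by
      rw [hs, map_mul, eval_X, C_mul]
      ring
    rw [h1]
    refine Ideal.add_mem _ (Ideal.mul_mem_left _ _ hp) ?_
    rw [pow_two]
    refine Ideal.mul_mem_mul (sub_mem_mm q j) ?_
    exact Ideal.sum_mem _ fun i _ => Ideal.mul_mem_left _ _ (sub_mem_mm q i)

/-- **Local coordinates.** -/
theorem ch (q : σ → k) (Y : σ → MvPolynomial σ k) (hY : ∀ b, eval q (Y b) = 0)
    (hdet : (Matrix.of fun i b => eval q (pderiv i (Y b))).det ≠ 0) :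
    (∀ (B : ℕ) (G : MvPolynomial σ k), ∃ T : MvPolynomial σ k,
      G - aeval Y T ∈ (RingHom.ker (eval q)) ^ B) ∧
    ∀ (B : ℕ) (T : MvPolynomial σ k), aeval Y T ∈ (RingHom.ker (eval q)) ^ B →
      ∀ s ∈ T.support, B ≤ s.degree := by
  set J : Matrix σ σ k := Matrix.of fun i b => eval q (pderiv i (Y b)) with hJ
  have hu : IsUnit J.det := isUnit_iff_ne_zero.2 hdet
  have huT : IsUnit J.transpose.det := by rwa [Matrix.det_transpose]
  set M : Matrix σ σ k := J.transpose⁻¹ with hM
  have hJM : J.transpose * M = 1 := Matrix.mul_nonsing_inv _ huT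
  have hMJ : M * J.transpose = 1 := Matrix.nonsing_inv_mul _ huT
  -- the two substitutions
  set ψ : MvPolynomial σ k →ₐ[k] MvPolynomial σ k :=
    aeval fun i => C (q i) + ∑ b, C (M i b) * X b with hψ
  set χ : MvPolynomial σ k →ₐ[k] MvPolynomial σ k :=
    aeval fun b => ∑ i, C (J i b) * (X i - C (q i)) with hχ
  have hψX : ∀ i, ψ (X i - C (q i)) = ∑ b, C (M i b) * X b := by
    intro i
    rw [map_sub, show ψ (C (q i)) = C (q i) from ψ.commutes _, hψ, aeval_X]
    ring
  have hχψ : ∀ G, χ (ψ G) = G := by
    intro G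
    have h1 : χ.comp ψ = AlgHom.id k _ := by
      ext1 i
      rw [AlgHom.comp_apply, AlgHom.id_apply, hψ, aeval_X, map_add,
        show χ (C (q i)) = C (q i) from χ.commutes _, map_sum]
      have h2 : ∀ b, χ (C (M i b) * X b) = ∑ l, C (M i b * J l b) * (X l - C (q l)) := by
        intro b
        rw [map_mul, show χ (C (M i b)) = C (M i b) from χ.commutes _, hχ, aeval_X, Finset.mul_sum]
        refine Finset.sum_congr rfl fun l _ => ?_
        rw [C_mul]
        ring
      rw [Finset.sum_congr rfl fun b _ => h2 b, Finset.sum_comm]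
      have h3 : ∀ l, ∑ b, C (M i b * J l b) * (X l - C (q l)) =
          (if i = l then (X l - C (q l) : MvPolynomial σ k) else 0) := by
        intro l
        rw [← Finset.sum_mul, ← map_sum]
        have h4 : ∑ b, M i b * J l b = (M * J.transpose) i l := by
          rw [Matrix.mul_apply]
          rfl
        rw [h4, hMJ, Matrix.one_apply]
        split_ifs <;> simp
      rw [Finset.sum_congr rfl fun l _ => h3 l]
      simp
    exact DFunLike.congr_fun h1 G
  have hψm : ∀ B, ∀ x ∈ mm q ^ B, ψ x ∈ nn σ k ^ B := by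
    have h1 : mm q ≤ (nn σ k).comap ψ.toRingHom := by
      intro x hx
      show ψ x ∈ nn σ k
      apply mem_nn
      have hx0 : eval q x = 0 := hx
      have h2 : (constantCoeff : MvPolynomial σ k →+* k).comp ψ.toRingHom = eval q := by
        refine MvPolynomial.ringHom_ext (fun a => ?_) fun i => ?_
        · simp
        · simp [hψ]
      have h3 := DFunLike.congr_fun h2 x
      rw [hx0] at h3
      exact h3
    intro B x hx
    have h2 : mm q ^ B ≤ (nn σ k ^ B).comap ψ.toRingHom :=
      (Ideal.pow_right_mono h1 B).trans (Ideal.le_comap_pow _ B)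
    exact h2 hx
  have hχn : ∀ B, ∀ x ∈ nn σ k ^ B, χ x ∈ mm q ^ B := by
    have h1 : nn σ k ≤ (mm q).comap χ.toRingHom := by
      refine Ideal.span_le.2 ?_
      rintro _ ⟨b, rfl⟩
      show χ (X b) ∈ mm q
      rw [hχ, aeval_X]
      exact Ideal.sum_mem _ fun i _ => Ideal.mul_mem_left _ _ (sub_mem_mm q i)
    intro B x hx
    have h2 : nn σ k ^ B ≤ (mm q ^ B).comap χ.toRingHom :=
      (Ideal.pow_right_mono h1 B).trans (Ideal.le_comap_pow _ B)
    exact h2 hx
  set θ : MvPolynomial σ k →ₐ[k] MvPolynomial σ k := ψ.comp (aeval Y) with hθdef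
  have hθ : ∀ b, θ (X b) - X b ∈ nn σ k ^ 2 := by
    intro b
    have h1 := hψm 2 _ (taylor q (Y b))
    rw [hY b, C_0, sub_zero, map_sub, map_sum] at h1
    have h2 : ∑ i, ψ (C (eval q (pderiv i (Y b))) * (X i - C (q i))) = X b := by
      have h3 : ∀ i, ψ (C (eval q (pderiv i (Y b))) * (X i - C (q i))) =
          ∑ c, C (J i b * M i c) * X c := by
        intro i
        rw [map_mul, hψX, Finset.mul_sum,
          show ψ (C (eval q (pderiv i (Y b)))) = C (eval q (pderiv i (Y b))) from ψ.commutes _]
        refine Finset.sum_congr rfl fun c _ => ?_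
        rw [C_mul]
        have : J i b = eval q (pderiv i (Y b)) := rfl
        rw [this]
        ring
      rw [Finset.sum_congr rfl fun i _ => h3 i, Finset.sum_comm]
      have h4 : ∀ c, ∑ i, C (J i b * M i c) * (X c : MvPolynomial σ k) =
          if b = c then (X c : MvPolynomial σ k) else 0 := by
        intro c
        rw [← Finset.sum_mul, ← map_sum]
        have h5 : ∑ i, J i b * M i c = (J.transpose * M) b c := by
          rw [Matrix.mul_apply]
          rfl
        rw [h5, hJM, Matrix.one_apply]
        split_ifs <;> simp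
      rw [Finset.sum_congr rfl fun c _ => h4 c]
      simp
    rw [h2] at h1
    rw [hθdef, AlgHom.comp_apply, aeval_X]
    exact h1
  refine ⟨fun B G => ?_, fun B T hT => ?_⟩
  · obtain ⟨T, hT⟩ := near_surj θ hθ B (ψ G)
    refine ⟨T, ?_⟩
    have h1 : ψ G - θ T = ψ (G - aeval Y T) := by
      rw [map_sub]
      rfl
    rw [h1] at hT
    have h2 := hχn B _ hT
    rwa [hχψ] at h2
  · have h1 := near_inj θ hθ B T (hψm B _ hT)
    exact (mem_pow_idealOfVars_iff B T).1 h1

end Pool.Agent.Q296.AB
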