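import Pool.Agent.Q41.AB.Stm
import Pool.Agent.Q296.AB.Ch

set_option autoImplicit false

/-!
Local coordinates: the statement of the job.
-/

namespace Pool.Agent.Q296.AB

theorem chS : Pool.Agent.Q41.AB.S_CH := fun q Y hY hdet => ch q Y hY hdet

end Pool.Agent.Q296.AB
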