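import Mathlib

/-! JOB Comb: from the inequality for integral combinations to the exponents. -/

set_option autoImplicit false

namespace Pool.Agent.Q296.AB

/-- linear programming with finitely many vertices -/
def LPst : Prop := ∀ {κ R : Type} [Fintype κ] [Fintype R] (A : R → κ → ℤ) (b : R → ℤ),
    (∃ e : κ → ℚ, (∀ c, 0 ≤ e c) ∧ ∀ r, (b r : ℚ) ≤ ∑ c, (A r c : ℚ) * e c) →
    ∃ S : Finset (κ → ℚ), (∀ e ∈ S, (∀ c, 0 ≤ e c) ∧ ∀ r, (b r : ℚ) ≤ ∑ c, (A r c : ℚ) * e c) ∧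
      ∀ v : κ → ℕ, ∃ e ∈ S, ∃ y : R → ℚ, (∀ r, 0 ≤ y r) ∧ (∀ c, ∑ r, y r * A r c ≤ v c) ∧
        ∑ c, (v c : ℚ) * e c ≤ ∑ r, y r * b r

theorem denom {R : Type} [Fintype R] (y : R → ℚ) (hy : ∀ r, 0 ≤ y r) :
    ∃ (M : ℕ) (Z : R → ℕ), 1 ≤ M ∧ ∀ r, (Z r : ℚ) = M * y r := by
  classical
  refine ⟨∏ r, (y r).den, fun r => (∏ r, (y r).den) / (y r).den * (y r).num.toNat,
    Nat.one_le_iff_ne_zero.2 (Finset.prod_ne_zero_iff.2 fun r _ => (y r).den_nz), fun r => ?_⟩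
  have h1 : (y r).den ∣ ∏ r, (y r).den := Finset.dvd_prod_of_mem _ (Finset.mem_univ r)
  obtain ⟨t, ht⟩ := h1
  beta_reduce
  rw [ht, Nat.mul_div_cancel_left _ (y r).den_pos]
  have h2 : (((y r).num.toNat : ℕ) : ℚ) = ((y r).num : ℚ) := by
    have : (((y r).num.toNat : ℕ) : ℤ) = (y r).num := Int.toNat_of_nonneg (Rat.num_nonneg.2 (hy r))
    exact_mod_cast this
  have h3 : (y r) * (y r).den = (y r).num := Rat.mul_den_eq_num (y r)
  push_cast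
  rw [h2, ← h3]
  ring

theorem combJob (lp : LPst) {κ ρ : Type} [Fintype κ] [Fintype ρ] (δ : κ → ρ → ℕ) (s : ρ → ℕ)
    (A : Set (κ → ℕ))
    (hex : ∃ e : κ → ℚ, (∀ c, 0 ≤ e c) ∧ (∀ v ∈ A, 1 ≤ ∑ c, (v c : ℚ) * e c) ∧
      ∀ l, ∑ c, (δ c l : ℚ) * e c ≤ s l) :
    ∃ S : Finset (κ → ℚ), (∀ e ∈ S, (∀ c, 0 ≤ e c) ∧ (∀ v ∈ A, 1 ≤ ∑ c, (v c : ℚ) * e c) ∧
      ∀ l, ∑ c, (δ c l : ℚ) * e c ≤ s l) ∧
      ∀ v : κ → ℕ, ∃ e ∈ S, ∃ Y : ρ → ℚ, (∀ l, 0 ≤ Y l) ∧ ∀ (Q : ρ → ℕ) (m j r : ℕ),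
        (∀ (M : ℕ) {ι : Type} [Fintype ι] (V : ι → κ → ℕ) (μ : ρ → ℕ), 1 ≤ M →
          (∀ i, V i ∈ A) → (∀ c, ∑ i, V i c ≤ M * v c + ∑ l, μ l * δ c l) →
          m * Fintype.card ι ≤ ∑ l, (m * s l + Q l * (j + 1)) * μ l + M * r) →
        (m : ℚ) * ∑ c, (v c : ℚ) * e c ≤ r + (j + 1) * ∑ l, (Q l : ℚ) * Y l := by
  classical
  have hpwo : A.IsPWO := Set.isPWO_of_wellQuasiOrderedLE A
  have hfin : {x | Minimal (· ∈ A) x}.Finite :=
    (setOfPred_minimal_antichain _).finite_of_partiallyWellOrderedOn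
      (hpwo.mono (setOfPred_minimal_subset _))
  set R : Finset (κ → ℕ) := hfin.toFinset with hR
  have hRA : ∀ w ∈ R, w ∈ A := by
    intro w hw
    rw [hR, Set.Finite.mem_toFinset] at hw
    exact hw.1
  have hAR : ∀ v ∈ A, ∃ w ∈ R, w ≤ v := by
    intro v hv
    obtain ⟨w, hwv, hw⟩ := hpwo.exists_le_minimal hv
    exact ⟨w, by rw [hR, Set.Finite.mem_toFinset]; exact hw, hwv⟩
  set AA : ({w // w ∈ R} ⊕ ρ) → κ → ℤ :=
    fun r c => Sum.elim (fun w => ((w.1 c : ℕ) : ℤ)) (fun l => -((δ c l : ℕ) : ℤ)) r with hAA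
  set bb : ({w // w ∈ R} ⊕ ρ) → ℤ := Sum.elim (fun _ => 1) (fun l => -((s l : ℕ) : ℤ)) with hbb
  have hiff : ∀ e : κ → ℚ, (∀ c, 0 ≤ e c) →
      ((∀ r, (bb r : ℚ) ≤ ∑ c, (AA r c : ℚ) * e c) ↔
        ((∀ v ∈ A, 1 ≤ ∑ c, (v c : ℚ) * e c) ∧ ∀ l, ∑ c, (δ c l : ℚ) * e c ≤ s l)) := by
    intro e he
    constructor
    · intro h
      constructor
      · intro v hv
        obtain ⟨w, hw, hwv⟩ := hAR v hv
        have h1 := h (Sum.inl ⟨w, hw⟩)
        simp only [hAA, hbb, Sum.elim_inl, Int.cast_one, Int.cast_natCast] at h1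
        refine h1.trans (Finset.sum_le_sum fun c _ => ?_)
        have h2 : (w c : ℚ) ≤ v c := by exact_mod_cast hwv c
        exact mul_le_mul_of_nonneg_right h2 (he c)
      · intro l
        have h1 := h (Sum.inr l)
        simp only [hAA, hbb, Sum.elim_inr, Int.cast_neg, Int.cast_natCast, neg_mul,
          Finset.sum_neg_distrib] at h1
        linarith
    · rintro ⟨h1, h2⟩ r
      rcases r with w | l
      · simp only [hAA, hbb, Sum.elim_inl, Int.cast_one, Int.cast_natCast]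
        exact h1 _ (hRA _ w.2)
      · simp only [hAA, hbb, Sum.elim_inr, Int.cast_neg, Int.cast_natCast, neg_mul,
          Finset.sum_neg_distrib]
        linarith [h2 l]
  obtain ⟨e0, he0, he1⟩ := hex
  obtain ⟨S, hS1, hS2⟩ := lp AA bb ⟨e0, he0, (hiff e0 he0).2 he1⟩
  refine ⟨S, fun e he => ⟨(hS1 e he).1, (hiff e (hS1 e he).1).1 (hS1 e he).2⟩, fun v => ?_⟩
  obtain ⟨e, heS, y, hy0, hy1, hy2⟩ := hS2 v
  refine ⟨e, heS, fun l => y (Sum.inr l), fun l => hy0 _, fun Q m j r H => ?_⟩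
  obtain ⟨M, Z, hM, hZ⟩ := denom y hy0
  have hMQ : (0 : ℚ) < M := by exact_mod_cast hM
  have H1 := H M (ι := Σ w : {w // w ∈ R}, Fin (Z (Sum.inl w))) (fun i => i.1.1)
    (fun l => Z (Sum.inr l)) hM (fun i => hRA _ i.1.2) (fun c => by
      have h1 := hy1 c
      rw [Fintype.sum_sum_type] at h1
      simp only [hAA, Sum.elim_inl, Sum.elim_inr, Int.cast_neg, Int.cast_natCast, mul_neg,
        Finset.sum_neg_distrib] at h1
      have h2 : ∑ i : (Σ w : {w // w ∈ R}, Fin (Z (Sum.inl w))), i.1.1 c =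
          ∑ w : {w // w ∈ R}, Z (Sum.inl w) * w.1 c := by
        rw [Fintype.sum_sigma]
        refine Finset.sum_congr rfl fun w _ => ?_
        simp
      rw [h2]
      have h3 : ((∑ w : {w // w ∈ R}, Z (Sum.inl w) * w.1 c : ℕ) : ℚ) ≤
          ((M * v c + ∑ l, Z (Sum.inr l) * δ c l : ℕ) : ℚ) := by
        push_cast
        simp only [hZ]
        have h4 : ∀ w : {w // w ∈ R}, (M : ℚ) * y (Sum.inl w) * (w.1 c : ℚ) =
            M * (y (Sum.inl w) * (w.1 c : ℚ)) := fun w => by ring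
        have h5 : ∀ l, (M : ℚ) * y (Sum.inr l) * (δ c l : ℚ) =
            M * (y (Sum.inr l) * (δ c l : ℚ)) := fun l => by ring
        simp only [h4, h5]
        rw [← Finset.mul_sum, ← Finset.mul_sum, ← mul_add]
        apply mul_le_mul_of_nonneg_left _ hMQ.le
        linarith
      exact_mod_cast h3)
  have hcard : Fintype.card (Σ w : {w // w ∈ R}, Fin (Z (Sum.inl w))) =
      ∑ w : {w // w ∈ R}, Z (Sum.inl w) := by
    rw [Fintype.card_sigma]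
    exact Finset.sum_congr rfl fun w _ => Fintype.card_fin _
  rw [hcard] at H1
  have H2 : ((m * ∑ w : {w // w ∈ R}, Z (Sum.inl w) : ℕ) : ℚ) ≤
      ((∑ l, (m * s l + Q l * (j + 1)) * Z (Sum.inr l) + M * r : ℕ) : ℚ) := by exact_mod_cast H1
  push_cast at H2
  simp only [hZ] at H2
  have e1 : ∑ w : {w // w ∈ R}, (M : ℚ) * y (Sum.inl w) = M * ∑ w : {w // w ∈ R}, y (Sum.inl w) := by
    rw [Finset.mul_sum]
  have e2 : ∑ l, ((m : ℚ) * s l + Q l * (j + 1)) * (M * y (Sum.inr l)) =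
      M * (m * ∑ l, y (Sum.inr l) * s l + (j + 1) * ∑ l, (Q l : ℚ) * y (Sum.inr l)) := by
    rw [Finset.mul_sum, Finset.mul_sum, ← Finset.sum_add_distrib, Finset.mul_sum]
    exact Finset.sum_congr rfl fun l _ => by ring
  rw [e1, e2] at H2
  have H3 : (m : ℚ) * ∑ w : {w // w ∈ R}, y (Sum.inl w) ≤
      m * ∑ l, y (Sum.inr l) * s l + (j + 1) * ∑ l, (Q l : ℚ) * y (Sum.inr l) + r := by
    have : (M : ℚ) * (m * ∑ w : {w // w ∈ R}, y (Sum.inl w)) ≤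
        M * (m * ∑ l, y (Sum.inr l) * s l + (j + 1) * ∑ l, (Q l : ℚ) * y (Sum.inr l) + r) := by
      linarith
    exact le_of_mul_le_mul_left this hMQ
  rw [Fintype.sum_sum_type] at hy2
  simp only [hbb, Sum.elim_inl, Sum.elim_inr, Int.cast_one, Int.cast_neg, Int.cast_natCast,
    mul_neg, mul_one, Finset.sum_neg_distrib] at hy2
  have H4 := mul_le_mul_of_nonneg_left hy2 (Nat.cast_nonneg m : (0:ℚ) ≤ m)
  linarith

end Pool.Agent.Q296.AB
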