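import Pool.Agent.Q296.AB.Ch

/-! JOB E: formal local coordinates. -/

set_option autoImplicit false

open MvPolynomial

namespace Pool.Agent.Q296.AB

variable {k : Type} [Field k] {n : ℕ}

theorem aeval_mem (q : Fin n → k) (Y : Fin n → MvPolynomial (Fin n) k)
    (hY : ∀ b, eval q (Y b) = 0) (B : ℕ) (T : MvPolynomial (Fin n) k)
    (h : ∀ s ∈ T.support, B ≤ s.degree) : aeval Y T ∈ (RingHom.ker (eval q)) ^ B := by
  rw [aeval_def, eval₂_eq']
  refine Ideal.sum_mem _ fun s hs => Ideal.mul_mem_left _ _ ?_
  have h1 : ∏ i, Y i ^ s i ∈ (RingHom.ker (eval q)) ^ (∑ i, s i) := by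
    rw [← Finset.prod_pow_eq_pow_sum]
    exact Ideal.prod_mem_prod fun i _ => Ideal.pow_mem_pow (by
      show eval q (Y i) = 0
      exact hY i) _
  refine Ideal.pow_le_pow_right ?_ h1
  have h2 := h s hs
  rwa [Finsupp.degree_eq_sum] at h2

theorem eJob (q : Fin n → k)
    (Y : Fin n → MvPolynomial (Fin n) k) (hY : ∀ b, eval q (Y b) = 0)
    (hdet : (Matrix.of fun i b => eval q (pderiv i (Y b))).det ≠ 0) :
    ∃ E : MvPolynomial (Fin n) k →ₐ[k] MvPowerSeries (Fin n) k, Function.Injective E ∧
      (∀ P, MvPowerSeries.constantCoeff (E P) = eval q P) ∧ ∀ b, E (Y b) = MvPowerSeries.X b := by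
  classical
  obtain ⟨h1, h2⟩ := ch q Y hY hdet
  set m : Ideal (MvPolynomial (Fin n) k) := RingHom.ker (eval q) with hm
  choose T hT using h1
  -- well-definedness
  have key : ∀ (B : ℕ) (G S : MvPolynomial (Fin n) k), G - aeval Y S ∈ m ^ B →
      ∀ s : Fin n →₀ ℕ, s.degree < B → coeff s (T (s.degree + 1) G) = coeff s S := by
    intro B G S hS s hs
    have h3 : aeval Y (T (s.degree + 1) G - S) ∈ m ^ (s.degree + 1) := by
      rw [map_sub]
      have e1 : aeval Y (T (s.degree + 1) G) - aeval Y S =
          (G - aeval Y S) - (G - aeval Y (T (s.degree + 1) G)) := by ring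
      rw [e1]
      exact Ideal.sub_mem _ (Ideal.pow_le_pow_right (by omega) hS) (hT _ _)
    have h4 := h2 _ _ h3
    by_contra hne
    have h5 : s ∈ (T (s.degree + 1) G - S).support := by
      rw [mem_support_iff, coeff_sub]
      exact sub_ne_zero.mpr hne
    have := h4 s h5
    omega
  set E0 : MvPolynomial (Fin n) k → MvPowerSeries (Fin n) k :=
    fun G s => coeff s (T (s.degree + 1) G) with hE0
  have hc : ∀ (B : ℕ) (G S : MvPolynomial (Fin n) k), G - aeval Y S ∈ m ^ B →
      ∀ s : Fin n →₀ ℕ, s.degree < B → MvPowerSeries.coeff s (E0 G) = coeff s S := key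
  have hfull : ∀ (G S : MvPolynomial (Fin n) k), G = aeval Y S →
      E0 G = (S : MvPowerSeries (Fin n) k) := by
    intro G S hGS
    ext s
    rw [hc (s.degree + 1) G S (by rw [hGS, sub_self]; exact Ideal.zero_mem _) s (by omega),
      MvPolynomial.coeff_coe]
  have hone : E0 1 = 1 := by
    rw [hfull 1 1 (by rw [map_one]), MvPolynomial.coe_one]
  have hzero : E0 0 = 0 := by
    rw [hfull 0 0 (by rw [map_zero]), MvPolynomial.coe_zero]
  have hadd : ∀ G G', E0 (G + G') = E0 G + E0 G' := by
    intro G G'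
    ext s
    have e1 : G + G' - aeval Y (T (s.degree + 1) G + T (s.degree + 1) G') ∈
        m ^ (s.degree + 1) := by
      have e2 : G + G' - aeval Y (T (s.degree + 1) G + T (s.degree + 1) G') =
          (G - aeval Y (T (s.degree + 1) G)) + (G' - aeval Y (T (s.degree + 1) G')) := by
        rw [map_add]; ring
      rw [e2]
      exact Ideal.add_mem _ (hT _ _) (hT _ _)
    rw [hc _ _ _ e1 s (by omega), map_add, hc _ _ _ (hT (s.degree + 1) G) s (by omega),
      hc _ _ _ (hT (s.degree + 1) G') s (by omega), coeff_add]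
  have hmul : ∀ G G', E0 (G * G') = E0 G * E0 G' := by
    intro G G'
    ext s
    have e1 : G * G' - aeval Y (T (s.degree + 1) G * T (s.degree + 1) G') ∈
        m ^ (s.degree + 1) := by
      have e2 : G * G' - aeval Y (T (s.degree + 1) G * T (s.degree + 1) G') =
          G' * (G - aeval Y (T (s.degree + 1) G)) +
            aeval Y (T (s.degree + 1) G) * (G' - aeval Y (T (s.degree + 1) G')) := by
        rw [map_mul]; ring
      rw [e2]
      exact Ideal.add_mem _ (Ideal.mul_mem_left _ _ (hT _ _)) (Ideal.mul_mem_left _ _ (hT _ _))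
    rw [hc _ _ _ e1 s (by omega), MvPowerSeries.coeff_mul, coeff_mul]
    refine Finset.sum_congr rfl fun p hp => ?_
    rw [Finset.HasAntidiagonal.mem_antidiagonal] at hp
    have hd : p.1.degree + p.2.degree = s.degree := by rw [← hp, map_add]
    rw [hc _ _ _ (hT (s.degree + 1) G) p.1 (by omega),
      hc _ _ _ (hT (s.degree + 1) G') p.2 (by omega)]
  set E1 : MvPolynomial (Fin n) k →+* MvPowerSeries (Fin n) k :=
    { toFun := E0, map_one' := hone, map_zero' := hzero, map_add' := hadd, map_mul' := hmul }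
    with hE1
  set E : MvPolynomial (Fin n) k →ₐ[k] MvPowerSeries (Fin n) k :=
    { E1 with
      commutes' := fun c => by
        show E0 (algebraMap k _ c) = _
        rw [hfull (algebraMap k _ c) (C c) (by rw [aeval_C]), MvPolynomial.coe_C]
        rfl } with hE
  have hEE : ∀ P, E P = E0 P := fun P => rfl
  refine ⟨E, ?_, ?_, ?_⟩
  · rw [injective_iff_map_eq_zero]
    intro G hG
    have hz : ∀ B, G ∈ m ^ B := by
      intro B
      have h3 : aeval Y (T B G) ∈ m ^ B := by
        apply aeval_mem q Y hY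
        intro s hs
        by_contra hlt
        push Not at hlt
        have h4 := hc B G (T B G) (hT B G) s hlt
        rw [← hEE, hG, map_zero] at h4
        exact mem_support_iff.1 hs h4.symm
      have h4 := Ideal.add_mem _ (hT B G) h3
      rwa [sub_add_cancel] at h4
    have hmt : m ≠ ⊤ := by
      rw [hm]
      exact RingHom.ker_ne_top _
    have hi := Ideal.iInf_pow_eq_bot_of_isDomain m hmt
    have : G ∈ (⨅ i, m ^ i : Ideal (MvPolynomial (Fin n) k)) := by
      rw [Ideal.mem_iInf]
      exact hz
    rw [hi] at this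
    exact this
  · intro P
    rw [hEE, ← MvPowerSeries.coeff_zero_eq_constantCoeff_apply,
      hc 1 P (T 1 P) (hT 1 P) 0 (by simp)]
    have h3 : eval q (P - aeval Y (T 1 P)) = 0 := by
      have := hT 1 P
      rw [pow_one] at this
      exact this
    rw [map_sub, sub_eq_zero] at h3
    rw [h3]
    have h4 : (eval q).comp (aeval Y : MvPolynomial (Fin n) k →ₐ[k] _).toRingHom =
        (constantCoeff : MvPolynomial (Fin n) k →+* k) := by
      refine MvPolynomial.ringHom_ext (fun a => ?_) fun i => ?_
      · simp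
      · simp [hY]
    have h5 := DFunLike.congr_fun h4 (T 1 P)
    rw [← constantCoeff_eq]
    exact h5.symm
  · intro b
    rw [hEE, hfull (Y b) (X b) (by rw [aeval_X]), MvPolynomial.coe_X]

end Pool.Agent.Q296.AB
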