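import Pool.Agent.Q296.AB.E

/-! JOB Tor: monomial valuations in local coordinates. -/

set_option autoImplicit false

open MvPolynomial

namespace Pool.Agent.Q296.AB

variable {k : Type} [Field k] {n : ℕ}

theorem weight_sum (lam : Fin n → ℕ) (m : Fin n →₀ ℕ) :
    Finsupp.weight lam m = ∑ b, lam b * m b := by
  rw [Finsupp.weight_apply, Finsupp.sum_fintype _ _ fun i => by simp]
  exact Finset.sum_congr rfl fun b _ => by rw [smul_eq_mul, mul_comm]

/-- finitely supported functions -/
noncomputable def toF (a : Fin n → ℕ) : Fin n →₀ ℕ := Finsupp.equivFunOnFinite.symm a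

theorem toF_apply (a : Fin n → ℕ) (b : Fin n) : toF a b = a b := rfl

theorem prod_X (a : Fin n → ℕ) : ∏ b, (MvPowerSeries.X b : MvPowerSeries (Fin n) k) ^ a b =
    MvPowerSeries.monomial (toF a) 1 := by
  have h1 : (MvPolynomial.monomial (toF a) (1 : k) : MvPolynomial (Fin n) k) =
      ∏ b, X b ^ a b := by
    rw [MvPolynomial.monomial_eq, C_1, one_mul, Finsupp.prod_fintype _ _ fun i => by simp]
    rfl
  have h2 := congrArg (fun P : MvPolynomial (Fin n) k => (P : MvPowerSeries (Fin n) k)) h1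
  simp only [MvPolynomial.coe_monomial] at h2
  rw [h2]
  have h3 : ∀ P : MvPolynomial (Fin n) k, (P : MvPowerSeries (Fin n) k) =
      MvPolynomial.coeToMvPowerSeries.ringHom P := fun P => rfl
  rw [h3, map_prod]
  refine Finset.prod_congr rfl fun b _ => ?_
  rw [map_pow, ← h3, MvPolynomial.coe_X]

theorem torJob (q : Fin n → k)
    (Y : Fin n → MvPolynomial (Fin n) k)
    (E : MvPolynomial (Fin n) k →ₐ[k] MvPowerSeries (Fin n) k) (hinj : Function.Injective E)
    (hconst : ∀ P, MvPowerSeries.constantCoeff (E P) = eval q P)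
    (hX : ∀ b, E (Y b) = MvPowerSeries.X b) (lam : Fin n → ℕ) :
    ∃ ν : MvPolynomial (Fin n) k → ℤ,
      ((∀ P Q, P ≠ 0 → Q ≠ 0 → ν (P * Q) = ν P + ν Q) ∧
        (∀ P Q, P ≠ 0 → Q ≠ 0 → P + Q ≠ 0 → min (ν P) (ν Q) ≤ ν (P + Q)) ∧
        ∀ c : k, c ≠ 0 → ν (C c) = 0) ∧ (∀ P, P ≠ 0 → 0 ≤ ν P) ∧
      (∀ P, eval q P ≠ 0 → ν P = 0) ∧
      (∀ P : MvPolynomial (Fin n) k, P ≠ 0 → aeval Y P ≠ 0 ∧
        ν (aeval Y P) = ((((P : MvPowerSeries (Fin n) k).weightedOrder lam).toNat : ℕ) : ℤ)) ∧
      ∀ (r : ℕ) (T : Finset (Fin n → ℕ)) (P : (Fin n → ℕ) → MvPolynomial (Fin n) k),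
        (∀ a ∈ T, r ≤ ∑ b, lam b * a b ∧ ∀ b, lam b = 0 → a b = 0) →
        (∃ a ∈ T, ∑ b, lam b * a b = r ∧ eval q (P a) ≠ 0) →
        ∑ a ∈ T, P a * ∏ b, Y b ^ a b ≠ 0 ∧ ν (∑ a ∈ T, P a * ∏ b, Y b ^ a b) = r := by
  classical
  have hE0 : ∀ P, P ≠ 0 → E P ≠ 0 := fun P hP h => hP (hinj (by rw [h, map_zero]))
  have hfin : ∀ P, P ≠ 0 → ((((E P).weightedOrder lam).toNat : ℕ) : ℕ∞) =
      (E P).weightedOrder lam := fun P hP =>
    (MvPowerSeries.ne_zero_iff_weightedOrder_finite lam).1 (hE0 P hP)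
  have hq0 : ∀ P, eval q P ≠ 0 → ((E P).weightedOrder lam).toNat = 0 := by
    intro P hP
    have h1 : MvPowerSeries.coeff 0 (E P) ≠ 0 := by
      rw [MvPowerSeries.coeff_zero_eq_constantCoeff_apply, hconst]
      exact hP
    have h2 := MvPowerSeries.weightedOrder_le lam h1
    rw [map_zero, CharP.cast_eq_zero, nonpos_iff_eq_zero] at h2
    rw [h2]
    rfl
  have hcoe : ∀ P : MvPolynomial (Fin n) k, E (aeval Y P) = (P : MvPowerSeries (Fin n) k) := by
    intro P
    have h1 : (E.comp (aeval Y)) = (MvPolynomial.coeToMvPowerSeries.algHom k : 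
        MvPolynomial (Fin n) k →ₐ[k] MvPowerSeries (Fin n) k) := by
      ext1 i
      rw [AlgHom.comp_apply, aeval_X, hX, MvPolynomial.coeToMvPowerSeries.algHom_apply]
      simp
    have h2 := DFunLike.congr_fun h1 P
    rw [AlgHom.comp_apply, MvPolynomial.coeToMvPowerSeries.algHom_apply] at h2
    rw [h2]
    simp
  refine ⟨fun P => ((((E P).weightedOrder lam).toNat : ℕ) : ℤ), ⟨?_, ?_, ?_⟩, ?_, ?_, ?_, ?_⟩
  · intro P Q hP hQ
    have h1 : (((E (P * Q)).weightedOrder lam).toNat : ℕ∞) =
        ((((E P).weightedOrder lam).toNat + ((E Q).weightedOrder lam).toNat : ℕ) : ℕ∞) := by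
      rw [hfin _ (mul_ne_zero hP hQ), map_mul, MvPowerSeries.weightedOrder_mul]
      push_cast
      rw [hfin P hP, hfin Q hQ]
    have h2 : ((E (P * Q)).weightedOrder lam).toNat =
        ((E P).weightedOrder lam).toNat + ((E Q).weightedOrder lam).toNat := by exact_mod_cast h1
    simp only [h2]
    push_cast
    rfl
  · intro P Q hP hQ hPQ
    have h1 := MvPowerSeries.min_weightedOrder_le_add lam (f := E P) (g := E Q)
    rw [← map_add, ← hfin P hP, ← hfin Q hQ, ← hfin _ hPQ] at h1
    have h2 : min ((E P).weightedOrder lam).toNat ((E Q).weightedOrder lam).toNat ≤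
        ((E (P + Q)).weightedOrder lam).toNat := by
      rcases le_total ((E P).weightedOrder lam).toNat ((E Q).weightedOrder lam).toNat with h | h
      · have h3 : ((((E P).weightedOrder lam).toNat : ℕ) : ℕ∞) ≤
            (((E Q).weightedOrder lam).toNat : ℕ) := by exact_mod_cast h
        rw [min_eq_left h3] at h1
        rw [min_eq_left h]
        exact_mod_cast h1
      · have h3 : ((((E Q).weightedOrder lam).toNat : ℕ) : ℕ∞) ≤
            (((E P).weightedOrder lam).toNat : ℕ) := by exact_mod_cast h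
        rw [min_eq_right h3] at h1
        rw [min_eq_right h]
        exact_mod_cast h1
    beta_reduce
    exact_mod_cast h2
  · intro c hc
    have := hq0 (C c) (by rw [eval_C]; exact hc)
    simp only [this]
    rfl
  · intro P _
    positivity
  · intro P hP
    simp only [hq0 P hP]
    rfl
  · intro P hP
    have h1 : E (aeval Y P) ≠ 0 := by
      rw [hcoe]
      intro h
      exact hP (MvPolynomial.coe_injective _ _ (by rw [h, MvPolynomial.coe_zero]))
    refine ⟨fun h => h1 (by rw [h, map_zero]), ?_⟩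
    simp only [hcoe]
  · rintro r T P hT ⟨a0, ha0, hr, hq⟩
    set S := ∑ a ∈ T, P a * ∏ b, Y b ^ a b with hS
    have hES : ∀ d : Fin n →₀ ℕ, MvPowerSeries.coeff d (E S) =
        ∑ a ∈ T, if toF a ≤ d then MvPowerSeries.coeff (d - toF a) (E (P a)) * 1 else 0 := by
      intro d
      rw [hS, map_sum, map_sum]
      refine Finset.sum_congr rfl fun a _ => ?_
      have e1 : E (P a * ∏ b, Y b ^ a b) = E (P a) * MvPowerSeries.monomial (toF a) 1 := by
        rw [map_mul, map_prod, ← prod_X]
        congr 1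
        refine Finset.prod_congr rfl fun b _ => ?_
        rw [map_pow, hX]
      rw [e1, MvPowerSeries.coeff_mul_monomial]
    have hle : ∀ d : Fin n →₀ ℕ, Finsupp.weight lam d < r → MvPowerSeries.coeff d (E S) = 0 := by
      intro d hd
      rw [hES]
      refine Finset.sum_eq_zero fun a ha => ?_
      rw [if_neg]
      intro had
      have h1 := (hT a ha).1
      rw [weight_sum] at hd
      have h2 : ∑ b, lam b * a b ≤ ∑ b, lam b * d b :=
        Finset.sum_le_sum fun b _ => Nat.mul_le_mul_left _ (had b)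
      omega
    have h0 : MvPowerSeries.coeff (toF a0) (E S) ≠ 0 := by
      rw [hES, Finset.sum_eq_single a0]
      · rw [if_pos le_rfl, tsub_self, mul_one, MvPowerSeries.coeff_zero_eq_constantCoeff_apply,
          hconst]
        exact hq
      · intro a ha hne
        rw [if_neg]
        intro hle'
        apply hne
        have hle2 : ∀ b, a b ≤ a0 b := fun b => hle' b
        have h1 := (hT a ha).1
        have h3 : ∀ b, lam b * a b = lam b * a0 b := by
          by_contra hcon
          push Not at hcon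
          obtain ⟨b, hb⟩ := hcon
          have h4 : ∑ b, lam b * a b < ∑ b, lam b * a0 b :=
            Finset.sum_lt_sum (fun i _ => Nat.mul_le_mul_left _ (hle2 i))
              ⟨b, Finset.mem_univ b, lt_of_le_of_ne (Nat.mul_le_mul_left _ (hle2 b)) hb⟩
          omega
        funext b
        by_cases hb : lam b = 0
        · rw [(hT a ha).2 b hb, (hT a0 ha0).2 b hb]
        · exact Nat.eq_of_mul_eq_mul_left (Nat.pos_of_ne_zero hb) (h3 b)
      · intro h
        exact absurd ha0 h
    have hSne : S ≠ 0 := by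
      intro h
      rw [h, map_zero, map_zero] at h0
      exact h0 rfl
    refine ⟨hSne, ?_⟩
    have h1 : (E S).weightedOrder lam ≤ r := by
      refine le_trans (MvPowerSeries.weightedOrder_le lam h0) ?_
      rw [weight_sum]
      have : ∑ b, lam b * (toF a0) b = r := hr
      rw [this]
    have h2 : (r : ℕ∞) ≤ (E S).weightedOrder lam :=
      MvPowerSeries.nat_le_weightedOrder lam hle
    have h3 : (E S).weightedOrder lam = r := le_antisymm h1 h2
    simp only [h3]
    rfl

end Pool.Agent.Q296.AB
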