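import Pool.Agent.Q41.AB.Stm2
import Pool.Agent.Q296.AB.Tor
import Pool.Agent.Q296.AB.Comb

/-! Jobs E, Tor and Comb: the statements of `Pool.Agent.Q41.AB.Stm2`. -/

set_option autoImplicit false

namespace Pool.Agent.Q296.AB

theorem e : Pool.Agent.Q41.AB.S_E := fun q Y hY hdet => eJob q Y hY hdet

theorem tor (e : Pool.Agent.Q41.AB.S_E) : Pool.Agent.Q41.AB.S_Tor := by
  intro k _ n q Y hY hdet lam
  obtain ⟨E, h1, h2, h3⟩ := e q Y hY hdet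
  obtain ⟨ν, ⟨a1, a2, a3⟩, b, c, d, f⟩ := torJob q Y E h1 h2 h3 lam
  exact ⟨ν, ⟨a1, a2, a3⟩, b, c, d, f⟩

theorem comb (lp : Pool.Agent.Q41.AB.S_LP) : Pool.Agent.Q41.AB.S_Comb :=
  fun δ s A h => combJob lp δ s A h

end Pool.Agent.Q296.AB
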